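import Pool.Agent.Q26.PL.F

/-!
# Palindromes with few prime factors in arithmetic progressions, the right order of magnitude

Every base `b ≥ 2`, every modulus `M` (primes dividing the base are allowed; if `b` is odd, `4 ∤ M`) and every class
`a` prime to `M`.
-/

set_option autoImplicit false

namespace Pool.Agent.Results.MP_e8d2ce_nt.ArithmeticProgressions

open Finset Filter

/-- Let `b ≥ 2`, `M ≥ 1` and `a` prime to `M`; if `b` is odd, suppose that `4` does not divide `M`. Let `k = 3` for
`b ≥ 1000`, `k = 4` for `64 ≤ b < 1000` and `k = 5` for `b < 64`. There is `c > 0` such that for all large `x`, if `P` is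
the number of base-`b` palindromes up to `x`, at least `c P / log x` of these palindromes are congruent to `a` modulo
`M` and have at most `k` prime factors counted with multiplicity, all of them larger than `x^(1/30)`. -/
theorem result (b : ℕ) (hb : 2 ≤ b) (M a : ℕ) (hM : 0 < M) (ha : a.Coprime M) (h4 : 2 ∣ b ∨ ¬ 4 ∣ M) :
    ∃ c : ℝ, 0 < c ∧ ∀ᶠ x : ℕ in atTop,
    c * (((Icc 1 x).filter (fun n => (Nat.digits b n).reverse = Nat.digits b n)).card : ℝ) / Real.log x ≤
      (((Icc 1 x).filter (fun n => (Nat.digits b n).reverse = Nat.digits b n ∧ n ≡ a [MOD M] ∧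
        n.primeFactorsList.length ≤ (if 1000 ≤ b then 3 else if 64 ≤ b then 4 else 5) ∧
        ∀ p ∈ n.primeFactorsList, (x : ℝ) ^ (1 / 30 : ℝ) < p)).card : ℝ) := by
  obtain ⟨c, hc0, hc⟩ := Pool.Agent.Q26.PL.allAP hb hM ha h4
  refine ⟨c, hc0, ?_⟩
  filter_upwards [hc] with x hx
  refine hx _ fun n h1 h2 h3 h4 h5 => ?_
  rw [mem_filter]
  exact ⟨h1, h2, h3, h4, h5⟩

end Pool.Agent.Results.MP_e8d2ce_nt.ArithmeticProgressions
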