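import Pool.Agent.Q26.PL.K

/-!
# Prime values of systems of polynomials at palindromes: upper bound, every base
-/

set_option autoImplicit false

namespace Pool.Agent.Results.MP_e8d2ce_nt.PolynomialPrimesUpperBound

open Finset Filter Polynomial

/-- Let `f i`, `i ∈ ι`, be `k` distinct irreducible integer polynomials of positive degree with positive leading
coefficients, such that no prime divides the product of their values at all integers, and let `b ≥ 2`. There is `C` such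
that for all large `N` at most `C b^N / N^k` of the (about `b^(N+1)`) base-`b` palindromes `n` with `2 N + 1` digits have
all `f i (n)` prime; more generally, for every `r ≥ 1` at most `C_r b^N / N^k` of them have the property that no
`f i (n)` has a prime factor `p ≤ n^(1/r)`. -/
theorem result {ι : Type} [Fintype ι] (f : ι → ℤ[X]) (hirr : ∀ i, Irreducible (f i))
    (hdeg : ∀ i, 0 < (f i).natDegree) (hlead : ∀ i, 0 < (f i).leadingCoeff) (hinj : Function.Injective f)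
    (hadm : ∀ p : ℕ, p.Prime → ∃ m : ℕ, ∀ i, ¬ (p : ℤ) ∣ (f i).eval (m : ℤ)) (b : ℕ) (hb : 2 ≤ b) :
    (∃ C : ℝ, 0 < C ∧ ∀ᶠ N : ℕ in atTop,
      (({n : ℕ | b ^ (2 * N) ≤ n ∧ n < b ^ (2 * N + 1) ∧ (Nat.digits b n).reverse = Nat.digits b n ∧
        ∀ i, ((f i).eval (n : ℤ)).natAbs.Prime}).ncard : ℝ) ≤ C * (b : ℝ) ^ N / (N : ℝ) ^ Fintype.card ι) ∧
    ∀ r : ℕ, 1 ≤ r → ∃ C : ℝ, 0 < C ∧ ∀ᶠ N : ℕ in atTop,
      (({n : ℕ | b ^ (2 * N) ≤ n ∧ n < b ^ (2 * N + 1) ∧ (Nat.digits b n).reverse = Nat.digits b n ∧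
        ∀ i, ∀ p : ℕ, p.Prime → (p : ℤ) ∣ (f i).eval (n : ℤ) → (n : ℝ) ^ (1 / (r : ℝ)) < (p : ℝ)}).ncard : ℝ) ≤
      C * (b : ℝ) ^ N / (N : ℝ) ^ Fintype.card ι := by
  have key : ∀ (N : ℕ) (P : ℕ → Prop) (B : ℝ), (∀ S : Finset ℕ, (∀ n ∈ S, n < b ^ (2 * N + 1) ∧
      b ^ (2 * N) ≤ n ∧ (Nat.digits b n).reverse = Nat.digits b n ∧ P n) → (S.card : ℝ) ≤ B) →
      (({n : ℕ | b ^ (2 * N) ≤ n ∧ n < b ^ (2 * N + 1) ∧
      (Nat.digits b n).reverse = Nat.digits b n ∧ P n}).ncard : ℝ) ≤ B := by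
    intro N P B h
    have hfin : ({n : ℕ | b ^ (2 * N) ≤ n ∧ n < b ^ (2 * N + 1) ∧
      (Nat.digits b n).reverse = Nat.digits b n ∧ P n}).Finite :=
      (Set.finite_lt_nat (b ^ (2 * N + 1))).subset fun n hn => hn.2.1
    rw [Set.ncard_eq_toFinset_card _ hfin]
    apply h
    intro n hn
    rw [Set.Finite.mem_toFinset] at hn
    exact ⟨hn.2.1, hn.1, hn.2.2.1, hn.2.2.2⟩
  constructor
  · obtain ⟨C, hC, h⟩ := Pool.Agent.Q26.PL.upperPrimes f ⟨hirr, hdeg, hlead, hinj, hadm⟩ hb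
    refine ⟨C, hC, ?_⟩
    filter_upwards [h] with N hN
    exact key N _ _ hN
  · intro r hr
    obtain ⟨C, hC, h⟩ := Pool.Agent.Q26.PL.upperP f ⟨hirr, hdeg, hlead, hinj, hadm⟩ hb hr
    refine ⟨C, hC, ?_⟩
    filter_upwards [h] with N hN
    exact key N _ _ hN

end Pool.Agent.Results.MP_e8d2ce_nt.PolynomialPrimesUpperBound
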