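import Pool.Agent.Q26.PL.K

/-!
# Almost prime values of systems of polynomials at palindromes, every base
-/

set_option autoImplicit false

namespace Pool.Agent.Results.MP_e8d2ce_nt.PolynomialValues

open Finset Filter Polynomial

/-- Let `f i`, `i ∈ ι`, be `k` distinct irreducible integer polynomials of positive degree with positive leading
coefficients, such that no prime divides the product of their values at all integers. There is `r` such that for every
base `b ≥ 2` with a nonzero digit `d` for which all `f i (d)` are prime to `b`, there is `c > 0` such that for all large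
`x`, at least `c P / (log x)^k` of the `P` base-`b` palindromes `n ≤ x` have the property that every `f i (n)` has at
most `r` prime factors, counted with multiplicity, all of them larger than `n^(1/r)`. -/
theorem result {ι : Type} [Fintype ι] (f : ι → ℤ[X]) (hirr : ∀ i, Irreducible (f i))
    (hdeg : ∀ i, 0 < (f i).natDegree) (hlead : ∀ i, 0 < (f i).leadingCoeff) (hinj : Function.Injective f)
    (hadm : ∀ p : ℕ, p.Prime → ∃ m : ℕ, ∀ i, ¬ (p : ℤ) ∣ (f i).eval (m : ℤ)) :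
    ∃ r : ℕ, 2 ≤ r ∧ ∀ b : ℕ, 2 ≤ b →
    (∃ d : ℕ, 0 < d ∧ d < b ∧ ∀ p : ℕ, p.Prime → p ∣ b → ∀ i, ¬ (p : ℤ) ∣ (f i).eval (d : ℤ)) →
    ∃ c : ℝ, 0 < c ∧ ∀ᶠ x : ℕ in atTop,
    c * (((Icc 1 x).filter (fun n => (Nat.digits b n).reverse = Nat.digits b n)).card : ℝ) /
      Real.log x ^ Fintype.card ι ≤
      (({n : ℕ | n ∈ Icc 1 x ∧ (Nat.digits b n).reverse = Nat.digits b n ∧
        (∀ i, ∀ p : ℕ, p.Prime → (p : ℤ) ∣ (f i).eval (n : ℤ) → (n : ℝ) ^ (1 / (r : ℝ)) < (p : ℝ)) ∧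
        ∀ i, ((f i).eval (n : ℤ)).natAbs.primeFactorsList.length ≤ r}).ncard : ℝ) := by
  classical
  obtain ⟨r, hr, h⟩ := Pool.Agent.Q26.PL.lowerX f ⟨hirr, hdeg, hlead, hinj, hadm⟩
  refine ⟨r, hr, fun b hb hd => ?_⟩
  obtain ⟨c, hc, h1⟩ := h b hb hd
  refine ⟨c, hc, ?_⟩
  filter_upwards [h1] with x hx
  have hset : {n : ℕ | n ∈ Icc 1 x ∧ (Nat.digits b n).reverse = Nat.digits b n ∧
        (∀ i, ∀ p : ℕ, p.Prime → (p : ℤ) ∣ (f i).eval (n : ℤ) → (n : ℝ) ^ (1 / (r : ℝ)) < (p : ℝ)) ∧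
        ∀ i, ((f i).eval (n : ℤ)).natAbs.primeFactorsList.length ≤ r} =
      (((Icc 1 x).filter (fun n => (Nat.digits b n).reverse = Nat.digits b n ∧
        (∀ i, ∀ p : ℕ, p.Prime → (p : ℤ) ∣ (f i).eval (n : ℤ) → (n : ℝ) ^ (1 / (r : ℝ)) < (p : ℝ)) ∧
        ∀ i, ((f i).eval (n : ℤ)).natAbs.primeFactorsList.length ≤ r) : Finset ℕ) : Set ℕ) := by
    ext n
    simp only [Set.mem_ofPred_eq, coe_filter]
  rw [hset, Set.ncard_coe_finset]
  refine hx _ fun n h1 h2 h3 => ?_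
  rw [mem_filter]
  exact ⟨h1, h2, h3.1, h3.2⟩

end Pool.Agent.Results.MP_e8d2ce_nt.PolynomialValues
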