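import Pool.Agent.Q26.PL.G

/-!
# Palindromes with at most three prime factors in arithmetic progressions

Every base `b ≥ 2`, every modulus `M` (primes dividing the base are allowed; if `b` is odd, `4 ∤ M`) and every class
`a` prime to `M`: at most three prime factors for `b ≥ 9`, four for `3 ≤ b ≤ 8`, five for `b = 2`.
-/

set_option autoImplicit false

namespace Pool.Agent.Results.MP_e8d2ce_nt.ThreeFactorsProgressions

open Finset Filter

/-- Let `b ≥ 2`, `M ≥ 1` and `a` prime to `M`; if `b` is odd, suppose that `4` does not divide `M`. For all large `N` at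
least `(3 b / 4) ^ N` of the base-`b` palindromes with exactly `2 N + 1` digits are congruent to `a` modulo `M` and have
at most three (`b ≥ 9`), four (`3 ≤ b ≤ 8`), five (`b = 2`) prime factors counted with multiplicity, each of them
larger than `b^(N/13)`. -/
theorem result (b : ℕ) (hb : 2 ≤ b) (M a : ℕ) (hM : 0 < M) (ha : a.Coprime M) (h4 : 2 ∣ b ∨ ¬ 4 ∣ M) :
    ∀ᶠ N : ℕ in atTop, (3 * (b : ℝ) / 4) ^ N ≤
    (((range (b ^ (2 * N + 1))).filter (fun n => b ^ (2 * N) ≤ n ∧
      (Nat.digits b n).reverse = Nat.digits b n ∧ n ≡ a [MOD M] ∧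
      n.primeFactorsList.length ≤ (if 9 ≤ b then 3 else if 3 ≤ b then 4 else 5) ∧
      ∀ p ∈ n.primeFactorsList, (b : ℝ) ^ ((N : ℝ) / 13) < p)).card : ℝ) := by
  have e : ∀ (b : ℕ) (N : ℕ), (b : ℝ) ^ ((1 / 13) * (N : ℝ)) = (b : ℝ) ^ ((N : ℝ) / 13) := by
    intro b N
    congr 1
    ring
  rcases Nat.lt_or_ge b 3 with h3 | h3
  · obtain rfl : b = 2 := by omega
    filter_upwards [Pool.Agent.Q26.PL.five2 hM ha] with N ⟨F, h1, h2⟩
    refine h1.trans ?_
    rw [Nat.cast_le]
    apply card_le_card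
    intro n hn
    obtain ⟨g1, g2, g3, g4, g5, g6⟩ := h2 n hn
    rw [mem_filter, mem_range]
    refine ⟨g1, g2, g3, g4, by rw [if_neg (by norm_num), if_neg (by norm_num)]; exact g5, fun p hp => ?_⟩
    rw [← e]
    exact g6 p hp
  · filter_upwards [Pool.Agent.Q26.PL.three3 h3 hM ha h4] with N ⟨F, h1, h2⟩
    refine h1.trans ?_
    rw [Nat.cast_le]
    apply card_le_card
    intro n hn
    obtain ⟨g1, g2, g3, g4, g5, g6⟩ := h2 n hn
    rw [mem_filter, mem_range]
    refine ⟨g1, g2, g3, g4, g5, fun p hp => ?_⟩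
    rw [← e]
    exact g6 p hp

end Pool.Agent.Results.MP_e8d2ce_nt.ThreeFactorsProgressions
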